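import Pool.Agent.H66.Gol.FSum

/-! # Polya-Vinogradov for the quadratic character modulo a prime (helper36, module M4c) -/

namespace Pool.Agent.H36.Gol

open Finset Pool.Agent.H95.Gol NumberTheorySymbols

section PV

variable (p : ℕ) [Fact p.Prime]

/-- the quadratic character with values in `ℂ` -/
noncomputable def chi : MulChar (ZMod p) ℂ :=
  (quadraticChar (ZMod p)).ringHomComp (Int.castRingHom ℂ)

theorem chi_apply (a : ZMod p) : chi p a = ((quadraticChar (ZMod p) a : ℤ) : ℂ) := rfl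

theorem chi_ne_one (hp : p ≠ 2) : chi p ≠ 1 := by
  intro h
  have hF : ringChar (ZMod p) ≠ 2 := by rwa [ZMod.ringChar_zmod_n]
  obtain ⟨a, ha⟩ := quadraticChar_exists_neg_one hF
  have h1 : chi p a = -1 := by rw [chi_apply, ha]; simp
  have ha0 : a ≠ 0 := by rintro rfl; simp at ha
  rw [h, MulChar.one_apply (isUnit_iff_ne_zero.2 ha0)] at h1
  norm_num at h1

theorem chi_quad : (chi p).IsQuadratic := by
  intro a
  rw [chi_apply]
  by_cases ha : a = 0
  · left; simp [ha]
  · rcases quadraticChar_dichotomy ha with h | h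
    · right; left; rw [h]; simp
    · right; right; rw [h]; simp

theorem chi_fourier (hp : p ≠ 2) (a : ZMod p) :
    ∑ t : ZMod p, chi p t * ZMod.stdAddChar (t * a)
      = chi p a * gaussSum (chi p) (ZMod.stdAddChar (N := p)) := by
  by_cases ha : a = 0
  · subst ha
    have h0 : chi p 0 = 0 := MulChar.map_zero _
    rw [h0, zero_mul]
    have h1 : ∑ t : ZMod p, chi p t = 0 := MulChar.sum_eq_zero_of_ne_one (chi_ne_one p hp)
    simpa using h1
  · have h1 := gaussSum_mulShift (chi p) (ZMod.stdAddChar (N := p)) (Units.mk0 a ha)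
    rw [Units.val_mk0] at h1
    have h2 : chi p a * chi p a = 1 := by
      rw [chi_apply, ← Int.cast_mul, ← pow_two, quadraticChar_sq_one ha]; simp
    have h3 : ∑ t : ZMod p, chi p t * ZMod.stdAddChar (t * a)
        = gaussSum (chi p) ((ZMod.stdAddChar (N := p)).mulShift a) := by
      unfold gaussSum
      refine sum_congr rfl fun t _ => ?_
      rw [AddChar.mulShift_apply, mul_comm a t]
    rw [h3, ← h1, ← mul_assoc, h2, one_mul]

theorem norm_gauss (hp : p ≠ 2) : ‖gaussSum (chi p) (ZMod.stdAddChar (N := p))‖ = √p := by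
  have h1 := gaussSum_sq (chi_ne_one p hp) (chi_quad p) (ψ := ZMod.stdAddChar (N := p))
    (ZMod.isPrimitive_stdAddChar p)
  have h2 : ‖chi p (-1)‖ = 1 := by
    have h := quadraticChar_dichotomy (F := ZMod p) (a := -1) (neg_ne_zero.2 one_ne_zero)
    rw [chi_apply]
    rcases h with h | h <;> rw [h] <;> simp
  have h3 := congrArg norm h1
  rw [norm_pow, norm_mul, h2, one_mul, ZMod.card] at h3
  have h4 : ‖((p : ℕ) : ℂ)‖ = (p : ℝ) := by simp
  rw [h4] at h3
  rw [← h3, Real.sqrt_sq (norm_nonneg _)]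

theorem sin_lower {p j : ℕ} (hj : 1 ≤ j) (hjp : j < p) :
    2 * (min (j : ℝ) (p - j)) / p ≤ Real.sin (Real.pi * j / p) := by
  have hp0 : (0 : ℝ) < p := by exact_mod_cast (by omega : 0 < p)
  have hj' : (j : ℝ) < p := by exact_mod_cast hjp
  have hj1 : (1 : ℝ) ≤ j := by exact_mod_cast hj
  have key : ∀ x : ℝ, 0 ≤ x → 2 * x ≤ p → 2 * x / p ≤ Real.sin (Real.pi * x / p) := by
    intro x hx hx2
    have h1 := Real.mul_le_sin (x := Real.pi * x / p) (by positivity) (by
      rw [div_le_iff₀ hp0]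
      nlinarith [Real.pi_pos])
    refine le_trans (le_of_eq ?_) h1
    field_simp
  rcases le_total (j : ℝ) (p - j) with h | h
  · rw [min_eq_left h]
    exact key j (by linarith) (by linarith)
  · rw [min_eq_right h]
    have h2 := key (p - j) (by linarith) (by linarith)
    have h3 : Real.sin (Real.pi * (p - j) / p) = Real.sin (Real.pi * j / p) := by
      have : Real.pi * (p - j) / p = Real.pi - Real.pi * j / p := by field_simp
      rw [this, Real.sin_pi_sub]
    rwa [h3] at h2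

theorem norm_std_sub_one {j : ℕ} (hj : 1 ≤ j) (hjp : j < p) :
    4 * (min (j : ℝ) (p - j)) / p ≤ ‖ZMod.stdAddChar ((j : ℕ) : ZMod p) - 1‖ := by
  have h1 : ZMod.stdAddChar ((j : ℕ) : ZMod p)
      = Complex.exp (Complex.I * ((2 * Real.pi * j / p : ℝ) : ℂ)) := by
    have := ZMod.stdAddChar_coe (N := p) (j : ℤ)
    rw [Int.cast_natCast] at this
    rw [this]
    congr 1
    push_cast
    ring
  rw [h1, Complex.norm_exp_I_mul_ofReal_sub_one]
  have h2 : 2 * Real.pi * j / p / 2 = Real.pi * j / p := by ring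
  rw [h2]
  have h3 := sin_lower hj hjp
  rw [Real.norm_eq_abs, abs_mul]
  have h4 : |(2 : ℝ)| = 2 := by norm_num
  rw [h4]
  have h5 := le_abs_self (Real.sin (Real.pi * j / p))
  have h6 : 4 * (min (j : ℝ) (p - j)) / p = 2 * (2 * (min (j : ℝ) (p - j)) / p) := by ring
  rw [h6]
  linarith

theorem geom_bound {j : ℕ} (hj : 1 ≤ j) (hjp : j < p) (M : ℕ) :
    ‖∑ m ∈ range M, ZMod.stdAddChar (((j : ℕ) : ZMod p) * (m : ZMod p))‖
      ≤ (p / 2) * (1 / j + 1 / (p - j)) := by
  have hp0 : (0 : ℝ) < p := by exact_mod_cast (by omega : 0 < p)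
  have hj1 : (1 : ℝ) ≤ j := by exact_mod_cast hj
  have hj' : (0 : ℝ) < p - j := by
    have : (j : ℝ) < p := by exact_mod_cast hjp
    linarith
  have h0 := norm_std_sub_one p hj hjp
  set z := ZMod.stdAddChar ((j : ℕ) : ZMod p) with hz
  have hmin : 0 < min (j : ℝ) (p - j) := lt_min (by linarith) hj'
  have hpos : 0 < ‖z - 1‖ := lt_of_lt_of_le (by positivity) h0
  have hz1 : ‖z‖ = 1 := by
    rw [hz, ZMod.stdAddChar_apply]; exact Circle.norm_coe _
  have h1 : ∑ m ∈ range M, ZMod.stdAddChar (((j : ℕ) : ZMod p) * (m : ZMod p))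
      = ∑ m ∈ range M, z ^ m := by
    refine sum_congr rfl fun m _ => ?_
    rw [hz, ← AddChar.map_nsmul_eq_pow, nsmul_eq_mul, mul_comm]
  have hz' : z ≠ 1 := by
    intro h; rw [h, sub_self, norm_zero] at hpos; exact lt_irrefl _ hpos
  rw [h1, geom_sum_eq hz', norm_div]
  have h2 : ‖z ^ M - 1‖ ≤ 2 := by
    refine (norm_sub_le _ _).trans ?_
    rw [norm_pow, hz1]; norm_num
  calc ‖z ^ M - 1‖ / ‖z - 1‖ ≤ 2 / (4 * (min (j : ℝ) (p - j)) / p) :=
        div_le_div₀ (by norm_num) h2 (by positivity) h0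
    _ = (p / 2) * (1 / min (j : ℝ) (p - j)) := by field_simp; norm_num
    _ ≤ (p / 2) * (1 / j + 1 / (p - j)) := by
        apply mul_le_mul_of_nonneg_left _ (by positivity)
        have a1 : 0 < 1 / (j : ℝ) := by positivity
        have a2 : 0 < 1 / ((p : ℝ) - j) := by positivity
        rcases min_choice (j : ℝ) (p - j) with h | h <;> rw [h] <;> linarith

/-- Polya-Vinogradov on an interval -/
theorem interval_bound (hp : p ≠ 2) (c : ZMod p) (M : ℕ) :
    |∑ m ∈ range M, ((quadraticChar (ZMod p) (c + (m : ZMod p)) : ℤ) : ℝ)|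
      ≤ √p * (1 + Real.log p) := by
  have hprime : p.Prime := Fact.out
  have hp0 : (0 : ℝ) < p := by exact_mod_cast hprime.pos
  set S : ℂ := ∑ m ∈ range M, chi p (c + (m : ZMod p)) with hS
  have hSn : ‖S‖ = |∑ m ∈ range M, ((quadraticChar (ZMod p) (c + (m : ZMod p)) : ℤ) : ℝ)| := by
    have : S = ((∑ m ∈ range M, ((quadraticChar (ZMod p) (c + (m : ZMod p)) : ℤ) : ℝ) : ℝ) : ℂ) := by
      rw [hS]; push_cast; rfl
    rw [this, Complex.norm_real, Real.norm_eq_abs]
  rw [← hSn]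
  have h1 : S * gaussSum (chi p) (ZMod.stdAddChar (N := p))
      = ∑ t : ZMod p, chi p t * ZMod.stdAddChar (t * c)
          * ∑ m ∈ range M, ZMod.stdAddChar (t * (m : ZMod p)) := by
    rw [hS, sum_mul]
    simp_rw [← chi_fourier p hp, mul_sum]
    rw [sum_comm]
    refine sum_congr rfl fun t _ => sum_congr rfl fun m _ => ?_
    rw [mul_add, AddChar.map_add_eq_mul, mul_assoc]
  have h2 : ‖∑ t : ZMod p, chi p t * ZMod.stdAddChar (t * c)
          * ∑ m ∈ range M, ZMod.stdAddChar (t * (m : ZMod p))‖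
      ≤ ∑ j ∈ Ico 1 p, (p / 2 : ℝ) * (1 / j + 1 / (p - j)) := by
    refine (norm_sum_le _ _).trans ?_
    have h3 : ∀ t : ZMod p, ‖chi p t * ZMod.stdAddChar (t * c)
          * ∑ m ∈ range M, ZMod.stdAddChar (t * (m : ZMod p))‖
        ≤ if t = 0 then 0 else (p / 2 : ℝ) * (1 / (t.val : ℝ) + 1 / (p - t.val)) := by
      intro t
      split_ifs with ht
      · rw [ht]
        have h0 : chi p 0 = 0 := MulChar.map_zero _
        rw [h0]; simp
      · have hv : 1 ≤ t.val := Nat.one_le_iff_ne_zero.2 (by rwa [Ne, ZMod.val_eq_zero])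
        have hv2 : t.val < p := ZMod.val_lt t
        have hg := geom_bound p hv hv2 M
        rw [ZMod.natCast_zmod_val] at hg
        rw [norm_mul, norm_mul]
        have hc : ‖chi p t‖ ≤ 1 := by
          rcases chi_quad p t with h | h | h <;> rw [h] <;> simp
        have hs : ‖(ZMod.stdAddChar (t * c) : ℂ)‖ = 1 := by
          rw [ZMod.stdAddChar_apply]; exact Circle.norm_coe _
        rw [hs, mul_one]
        calc _ ≤ 1 * ((p / 2 : ℝ) * (1 / (t.val : ℝ) + 1 / (p - t.val))) :=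
              mul_le_mul hc hg (norm_nonneg _) zero_le_one
          _ = _ := one_mul _
    refine (sum_le_sum fun t _ => h3 t).trans (le_of_eq ?_)
    rw [← sum_filter_add_sum_filter_not univ (fun t : ZMod p => t = 0)]
    rw [sum_congr rfl (fun t ht => if_pos (mem_filter.1 ht).2), sum_const_zero, zero_add]
    rw [sum_congr rfl (fun t ht => if_neg (mem_filter.1 ht).2)]
    refine sum_bij (fun t _ => t.val) ?_ ?_ ?_ ?_
    · intro t ht
      have ht0 := (mem_filter.1 ht).2
      exact mem_Ico.2 ⟨Nat.one_le_iff_ne_zero.2 (by rwa [Ne, ZMod.val_eq_zero]), ZMod.val_lt t⟩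
    · intro a _ b _ h
      exact ZMod.val_injective p h
    · intro j hj
      rw [mem_Ico] at hj
      refine ⟨(j : ZMod p), mem_filter.2 ⟨mem_univ _, ?_⟩, ZMod.val_natCast_of_lt hj.2⟩
      intro h
      have := congrArg ZMod.val h
      rw [ZMod.val_natCast_of_lt hj.2, ZMod.val_zero] at this
      omega
    · intro a _; rfl
  have h4 : ∑ j ∈ Ico 1 p, (p / 2 : ℝ) * (1 / j + 1 / (p - j)) ≤ p * (1 + Real.log p) := by
    have e1 : ∑ j ∈ Ico 1 p, (1 : ℝ) / ((p : ℝ) - j) = ∑ j ∈ Ico 1 p, (1 : ℝ) / j := by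
      refine sum_bij (fun j _ => p - j) ?_ ?_ ?_ ?_
      · intro j hj; rw [mem_Ico] at *; omega
      · intro a ha b hb h; rw [mem_Ico] at *; omega
      · intro b hb; rw [mem_Ico] at hb
        exact ⟨p - b, mem_Ico.2 (by omega), by omega⟩
      · intro j hj; rw [mem_Ico] at hj
        rw [Nat.cast_sub hj.2.le]
    rw [← mul_sum, sum_add_distrib, e1]
    have e2 : ∑ j ∈ Ico 1 p, (1 : ℝ) / j ≤ 1 + Real.log p := by
      have h5 := harmonic_le_one_add_log (p - 1)
      have h6 : ((harmonic (p - 1) : ℚ) : ℝ) = ∑ j ∈ Ico 1 p, (1 : ℝ) / j := by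
        rw [harmonic_eq_sum_Icc]
        push_cast
        have : Icc 1 (p - 1) = Ico 1 p := by
          ext j; rw [mem_Icc, mem_Ico]; have := hprime.two_le; omega
        rw [this]
        exact sum_congr rfl fun j _ => by rw [one_div]
      rw [← h6]
      refine h5.trans ?_
      have h7 : Real.log ((p - 1 : ℕ) : ℝ) ≤ Real.log p := by
        apply Real.log_le_log
        · have := hprime.two_le
          exact_mod_cast (by omega : 0 < p - 1)
        · exact_mod_cast Nat.sub_le p 1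
      linarith
    nlinarith
  have h5 : ‖S‖ * √p ≤ p * (1 + Real.log p) := by
    rw [← norm_gauss p hp, ← norm_mul, h1]
    exact h2.trans h4
  have hsq : 0 < √(p : ℝ) := Real.sqrt_pos.2 hp0
  have h6 : (p : ℝ) = √p * √p := (Real.mul_self_sqrt hp0.le).symm
  have h7 : ‖S‖ * √p ≤ (√p * (1 + Real.log p)) * √p := by
    calc ‖S‖ * √p ≤ p * (1 + Real.log p) := h5
      _ = (√p * √p) * (1 + Real.log p) := by rw [← h6]
      _ = _ := by ring
  exact le_of_mul_le_mul_right h7 hsq

/-- progression mod 4 -/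
theorem prog_bound (hp : p ≠ 2) (r : ℕ) (M : ℕ) :
    |∑ m ∈ range M, ((quadraticChar (ZMod p) ((4 * m + r : ℕ) : ZMod p) : ℤ) : ℝ)|
      ≤ √p * (1 + Real.log p) := by
  have h2 : (2 : ZMod p) ≠ 0 := by
    have h := (ZMod.natCast_eq_zero_iff 2 p).not.2 (fun h => hp
      ((Nat.prime_dvd_prime_iff_eq (Fact.out : p.Prime) Nat.prime_two).1 h))
    simpa using h
  have h4 : (4 : ZMod p) = 2 * 2 := by norm_num
  have h40 : (4 : ZMod p) ≠ 0 := by rw [h4]; exact mul_ne_zero h2 h2
  have hq : quadraticChar (ZMod p) 4 = 1 := by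
    rw [h4, map_mul, ← pow_two, quadraticChar_sq_one h2]
  have e : ∀ m : ℕ, quadraticChar (ZMod p) ((4 * m + r : ℕ) : ZMod p)
      = quadraticChar (ZMod p) ((r : ZMod p) / 4 + (m : ZMod p)) := by
    intro m
    have : ((4 * m + r : ℕ) : ZMod p) = 4 * ((r : ZMod p) / 4 + (m : ZMod p)) := by
      push_cast
      field_simp
      ring
    rw [this, map_mul, hq, one_mul]
  simp_rw [e]
  exact interval_bound p hp _ M

end PV

theorem F_one {p n : ℕ} {s : ℤ} [Fact p.Prime] (hp : p ≠ 2) (hs : s = 1 ∨ s = -1)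
    (hn : n % 4 = 1) : F (s * p) n = ((quadraticChar (ZMod p) ((n : ℕ) : ZMod p) : ℤ) : ℝ) := by
  have hodd : Odd n := Nat.odd_iff.2 (by omega)
  have hpo : Odd p := (Fact.out : p.Prime).odd_of_ne_two hp
  unfold F
  rw [if_pos hodd, jacobiSym.mul_left]
  have h1 : jacobiSym s n = 1 := by
    rcases hs with h | h <;> rw [h]
    · exact jacobiSym.one_left n
    · rw [jacobiSym.at_neg_one hodd, ZMod.χ₄_nat_one_mod_four hn]
  rw [h1, one_mul, jacobiSym.quadratic_reciprocity_one_mod_four' hpo hn,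
    ← jacobiSym.legendreSym.to_jacobiSym]
  simp [legendreSym]

theorem F_three {p : ℕ} {s : ℤ} [Fact p.Prime] (hp : p ≠ 2) (hs : s = 1 ∨ s = -1) :
    ∃ e : ℝ, |e| = 1 ∧ ∀ n : ℕ, n % 4 = 3 →
      F (s * p) n = e * ((quadraticChar (ZMod p) ((n : ℕ) : ZMod p) : ℤ) : ℝ) := by
  have hpo : Odd p := (Fact.out : p.Prime).odd_of_ne_two hp
  have h1 : ∃ e1 : ℤ, |e1| = 1 ∧ ∀ n : ℕ, n % 4 = 3 → jacobiSym s n = e1 := by
    rcases hs with h | h
    · exact ⟨1, by norm_num, fun n _ => by rw [h]; exact jacobiSym.one_left n⟩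
    · refine ⟨-1, by norm_num, fun n hn => ?_⟩
      rw [h, jacobiSym.at_neg_one (Nat.odd_iff.2 (by omega)), ZMod.χ₄_nat_three_mod_four hn]
  have h2 : ∃ e2 : ℤ, |e2| = 1 ∧ ∀ n : ℕ, n % 4 = 3 → jacobiSym p n = e2 * jacobiSym n p := by
    rcases Nat.odd_mod_four_iff.1 (Nat.odd_iff.1 hpo) with h | h
    · refine ⟨1, by norm_num, fun n hn => ?_⟩
      rw [one_mul, jacobiSym.quadratic_reciprocity_one_mod_four h (Nat.odd_iff.2 (by omega))]
    · refine ⟨-1, by norm_num, fun n hn => ?_⟩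
      rw [jacobiSym.quadratic_reciprocity_three_mod_four h hn]
      ring
  obtain ⟨e1, he1, h1⟩ := h1
  obtain ⟨e2, he2, h2⟩ := h2
  refine ⟨((e1 * e2 : ℤ) : ℝ), ?_, fun n hn => ?_⟩
  · rw [← Int.cast_abs, abs_mul, he1, he2]; norm_num
  · have hodd : Odd n := Nat.odd_iff.2 (by omega)
    unfold F
    rw [if_pos hodd, jacobiSym.mul_left, h1 n hn, h2 n hn, ← jacobiSym.legendreSym.to_jacobiSym]
    simp [legendreSym]
    ring

theorem F_even (D : ℤ) {n : ℕ} (hn : n % 2 = 0) : F D n = 0 := by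
  unfold F
  rw [if_neg (by rw [Nat.odd_iff]; omega)]

theorem sum_range_four (f : ℕ → ℝ) (K : ℕ) :
    ∑ n ∈ range (4 * K), f n
      = ∑ m ∈ range K, (f (4 * m) + f (4 * m + 1) + f (4 * m + 2) + f (4 * m + 3)) := by
  induction K with
  | zero => simp
  | succ K ih =>
    rw [sum_range_succ, ← ih]
    have : 4 * (K + 1) = 4 * K + 1 + 1 + 1 + 1 := by ring
    rw [this, sum_range_succ, sum_range_succ, sum_range_succ, sum_range_succ]
    ring

/-- Polya-Vinogradov for `F (± p)` -/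
theorem F_sum_PV : ∃ C : ℝ, 0 < C ∧ ∀ (p : ℕ) (s : ℤ), p.Prime → (s = 1 ∨ s = -1) → ∀ N : ℕ,
    |∑ n ∈ Icc 1 N, F (s * p) n| ≤ C * √p * Real.log (2 * p) := by
  refine ⟨8, by norm_num, fun p s hprime hs N => ?_⟩
  have hp2 : (2 : ℝ) ≤ p := by exact_mod_cast hprime.two_le
  have hsq : 1 ≤ √(p : ℝ) := by
    rw [Real.one_le_sqrt]; linarith
  have hlog : 1 ≤ Real.log (2 * p) := by
    have h1 : Real.log 4 ≤ Real.log (2 * p) := Real.log_le_log (by norm_num) (by linarith)
    have h2 : Real.log 4 = 2 * Real.log 2 := by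
      rw [show (4 : ℝ) = 2 ^ 2 by norm_num, Real.log_pow]; norm_num
    have := Real.log_two_gt_d9
    linarith
  have hprod : 1 ≤ √(p : ℝ) * Real.log (2 * p) := by nlinarith
  by_cases hp : p = 2
  · have hns : ¬ IsSquare (s * p) := by
      rw [hp]
      rintro ⟨a, ha⟩
      rcases hs with h | h
      · rw [h] at ha
        have h3 : a * a = 2 := by push_cast at ha; linarith
        have h4 : a.natAbs * a.natAbs = 2 := by
          rw [← Int.natAbs_mul, h3]; rfl
        have h5 : a.natAbs ≤ 1 := by nlinarith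
        interval_cases a.natAbs <;> omega
      · rw [h] at ha
        push_cast at ha
        nlinarith [mul_self_nonneg a]
    have h1 := Pool.Agent.H66.Gol.F_sum_trivial (s * p) hns N
    have h2 : (s * p : ℤ).natAbs = 2 := by
      rw [hp, Int.natAbs_mul]
      rcases hs with h | h <;> rw [h] <;> norm_num
    rw [h2] at h1
    push_cast at h1
    nlinarith
  · have : Fact p.Prime := ⟨hprime⟩
    obtain ⟨e, he, hF3⟩ := F_three (p := p) hp hs
    set f := F (s * p) with hf
    have e0 : ∑ n ∈ Icc 1 N, f n = ∑ n ∈ range (N + 1), f n := by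
      have f0 : f 0 = 0 := Pool.Agent.H66.Gol.F_zero _
      rw [sum_range_succ', f0, add_zero, range_eq_Ico, sum_Ico_add' f 0 N 1]
      rfl
    have hN : N + 1 = 4 * ((N + 1) / 4) + (N + 1) % 4 := (Nat.div_add_mod _ _).symm
    set K := (N + 1) / 4 with hK
    set r := (N + 1) % 4 with hr
    have hr4 : r < 4 := Nat.mod_lt _ (by norm_num)
    rw [e0, hN, sum_range_add, sum_range_four]
    have e1 : ∑ m ∈ range K, (f (4 * m) + f (4 * m + 1) + f (4 * m + 2) + f (4 * m + 3))
        = ∑ m ∈ range K, ((quadraticChar (ZMod p) ((4 * m + 1 : ℕ) : ZMod p) : ℤ) : ℝ)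
          + e * ∑ m ∈ range K, ((quadraticChar (ZMod p) ((4 * m + 3 : ℕ) : ZMod p) : ℤ) : ℝ) := by
      rw [mul_sum, ← sum_add_distrib]
      refine sum_congr rfl fun m _ => ?_
      have g0 : f (4 * m) = 0 := F_even _ (by omega)
      have g1 : f (4 * m + 1)
          = ((quadraticChar (ZMod p) ((4 * m + 1 : ℕ) : ZMod p) : ℤ) : ℝ) :=
        F_one hp hs (by omega)
      have g2 : f (4 * m + 2) = 0 := F_even _ (by omega)
      rw [g0, g1, g2, hF3 (4 * m + 3) (by omega)]
      ring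
    rw [e1]
    have b1 := prog_bound p hp 1 K
    have b3 := prog_bound p hp 3 K
    have br : |∑ n ∈ range r, f (4 * K + n)| ≤ 3 := by
      refine (abs_sum_le_sum_abs _ _).trans ?_
      calc ∑ n ∈ range r, |f (4 * K + n)| ≤ ∑ n ∈ range r, (1 : ℝ) :=
            sum_le_sum fun n _ => Pool.Agent.H66.Gol.abs_F_le _ _
        _ = r := by simp
        _ ≤ 3 := by exact_mod_cast (by omega : r ≤ 3)
    have hl : Real.log p ≤ Real.log (2 * p) := Real.log_le_log (by linarith) (by linarith)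
    have hb : √(p : ℝ) * (1 + Real.log p) ≤ 2 * (√(p : ℝ) * Real.log (2 * p)) := by
      nlinarith
    refine (abs_add_le _ _).trans ?_
    have hm : |∑ m ∈ range K, ((quadraticChar (ZMod p) ((4 * m + 1 : ℕ) : ZMod p) : ℤ) : ℝ)
          + e * ∑ m ∈ range K, ((quadraticChar (ZMod p) ((4 * m + 3 : ℕ) : ZMod p) : ℤ) : ℝ)|
        ≤ 2 * (√(p : ℝ) * (1 + Real.log p)) := by
      refine (abs_add_le _ _).trans ?_
      rw [abs_mul, he, one_mul]
      linarith
    nlinarith

end Pool.Agent.H36.Gol
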